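import Pool.Agent.TH87.RVE.Deck
import Pool.Agent.TH87.RVC.Main

set_option autoImplicit false
set_option linter.unusedSectionVars false

namespace Pool.Agent.TH87.RVE

open Finset Classical
open Pool.Agent.H234RC (Hypo NonIso Reconstructible exists_hypo)
open Pool.Agent.TH87.RVC (hiS loS dS s_bound compl_hypo relAut)

variable {V : Type} [Fintype V]

theorem lt_sq (N g : ℕ) (h : ∃ s : ℕ, N ≤ s * (s + 2) ∧ (3 / 2 : ℝ) ^ s ≤ 2 * (g : ℝ)) (t : ℕ)
    (ht : 2 * (g : ℝ) < (3 / 2 : ℝ) ^ t) : N < t ^ 2 := by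
  obtain ⟨s, hs1, hs2⟩ := h
  have h1 : (3 / 2 : ℝ) ^ s < (3 / 2 : ℝ) ^ t := lt_of_le_of_lt hs2 ht
  have h2 : s < t := (pow_lt_pow_iff_right₀ (by norm_num)).mp h1
  obtain ⟨d, rfl⟩ : ∃ d, t = s + 1 + d := ⟨t - (s + 1), by omega⟩
  nlinarith

theorem exists_t (a : ℕ) : ∃ t : ℕ, 2 * (a.factorial : ℝ) < (3 / 2 : ℝ) ^ t ∧
    (t : ℝ) ≤ 5 / 2 * (a * Real.log a) + 3 := by
  have hex : ∃ t : ℕ, 2 * (a.factorial : ℝ) < (3 / 2 : ℝ) ^ t :=
    pow_unbounded_of_one_lt _ (by norm_num)
  refine ⟨Nat.find hex, Nat.find_spec hex, ?_⟩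
  have h0 : Nat.find hex ≠ 0 := by
    intro h
    have h1 := Nat.find_spec hex
    rw [h, pow_zero] at h1
    have : (1 : ℝ) ≤ (a.factorial : ℝ) := by
      exact_mod_cast Nat.succ_le_of_lt (Nat.factorial_pos _)
    linarith
  obtain ⟨s, hs⟩ := Nat.exists_eq_succ_of_ne_zero h0
  have h1 := Nat.find_min hex (m := s) (by omega)
  have h2 := s_bound a s (not_lt.mp h1)
  rw [hs]
  push_cast
  exact h2

theorem gap_bound {G H : SimpleGraph V} {π : V → Equiv.Perm V} (hH : Hypo G H π)
    (hN : NonIso G H) (e : ℕ) (he : ∀ v, dS G univ v ≠ e) (t : ℕ)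
    (ht : 2 * (Nat.card (relAut G (hiS G e) (loS G e)) : ℝ) < (3 / 2 : ℝ) ^ t) :
    (comps G (loS G e)).card < t ^ 2 :=
  lt_sq _ _ (comp_bound hH hN e he) t ht

theorem count_bound {G H : SimpleGraph V} {π : V → Equiv.Perm V} (hH : Hypo G H π)
    (hN : NonIso G H) (A : Finset V) (k : ℕ)
    (hk : ∀ v, v ∉ A → (univ.filter (fun y => y ∉ A ∧ G.Adj v y)).card ≤ k)
    (t : ℕ) (ht : 2 * (A.card.factorial : ℝ) < (3 / 2 : ℝ) ^ t) :
    (comps G Aᶜ).card < t ^ 2 + A.card * (2 * A.card + k) := by
  -- degrees outside `A`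
  have hdeg : ∀ v, v ∉ A → dS G univ v ≤ A.card + k := by
    intro v hv
    have h1 : (univ.filter (fun y => G.Adj v y)) ⊆
        A ∪ univ.filter (fun y => y ∉ A ∧ G.Adj v y) := by
      intro y hy
      rw [mem_union, mem_filter]
      by_cases hyA : y ∈ A
      · left; exact hyA
      · right; exact ⟨mem_univ _, hyA, (mem_filter.mp hy).2⟩
    calc dS G univ v ≤ (A ∪ univ.filter (fun y => y ∉ A ∧ G.Adj v y)).card := card_le_card h1
      _ ≤ A.card + (univ.filter (fun y => y ∉ A ∧ G.Adj v y)).card := card_union_le _ _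
      _ ≤ A.card + k := by have := hk v hv; omega
  -- a gap in the degree sequence
  have hgap : ∃ e, A.card + k + 1 ≤ e ∧ e ≤ 2 * A.card + k + 1 ∧ ∀ v, dS G univ v ≠ e := by
    by_contra hcon
    push Not at hcon
    have h1 : Finset.Icc (A.card + k + 1) (2 * A.card + k + 1) ⊆ A.image (fun v => dS G univ v) := by
      intro e he
      rw [mem_Icc] at he
      obtain ⟨v, hv⟩ := hcon e he.1 he.2
      rw [mem_image]
      refine ⟨v, ?_, hv⟩
      by_contra hvA
      have := hdeg v hvA
      omega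
    have h2 := card_le_card h1
    rw [Nat.card_Icc] at h2
    have h3 : (A.image (fun v => dS G univ v)).card ≤ A.card := card_image_le
    omega
  obtain ⟨e, he1, he2, he⟩ := hgap
  have hhi : (hiS G e).card ≤ A.card := by
    apply card_le_card
    intro v hv
    by_contra hvA
    have h1 := hdeg v hvA
    have h2 := (mem_filter.mp hv).2
    omega
  have hmain := gap_bound hH hN e he t (by
    refine lt_of_le_of_lt ?_ ht
    have : (Nat.card (relAut G (hiS G e) (loS G e)) : ℝ) ≤ (A.card.factorial : ℝ) := by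
      exact_mod_cast (card_relAut_le G _ _).trans (Nat.factorial_le hhi)
    linarith)
  have hlo : Aᶜ ⊆ loS G e := by
    intro v hv
    have := hdeg v (mem_compl.mp hv)
    rw [loS, mem_filter]
    exact ⟨mem_univ _, by omega⟩
  -- counting
  have hcount : (comps G Aᶜ).card ≤ (comps G (loS G e)).card + A.card * (2 * A.card + k) := by
    have h1 : comps G Aᶜ ⊆ comps G (loS G e) ∪ (A ∩ loS G e).biUnion
        (fun y => (univ.filter (fun v => G.Adj y v)).image (comp G Aᶜ)) := by
      intro D hD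
      have hDs := comps_sub G _ D hD
      rw [mem_union]
      by_cases hF : ∃ x ∈ D, ∃ y ∈ A ∩ loS G e, G.Adj x y
      · right
        obtain ⟨x, hx, y, hy, hadj⟩ := hF
        rw [mem_biUnion]
        exact ⟨y, hy, mem_image.mpr ⟨x, mem_filter.mpr ⟨mem_univ _, hadj.symm⟩,
          comp_of_mem G _ D hD x hx⟩⟩
      · left
        push Not at hF
        have hcl : ∀ x ∈ D, ∀ y ∈ loS G e, G.Adj x y → y ∈ D := by
          intro x hx y hy hadj
          have hyA : y ∈ Aᶜ := by
            rw [mem_compl]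
            intro hyA
            exact hF x hx y (mem_inter.mpr ⟨hyA, hy⟩) hadj
          exact comp_closed G _ D hD x y hx hyA hadj
        obtain ⟨x, hx⟩ := comps_nonempty G _ D hD
        rw [mem_comps]
        refine ⟨x, hlo (hDs hx), ?_⟩
        rw [comp_closed_eq G (loS G e) D (hDs.trans hlo) hcl x hx,
          ← comp_closed_eq G Aᶜ D hDs (fun x hx y hy h => comp_closed G _ D hD x y hx hy h) x hx]
        exact comp_of_mem G _ D hD x hx
    calc (comps G Aᶜ).card ≤ (comps G (loS G e) ∪ (A ∩ loS G e).biUnion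
        (fun y => (univ.filter (fun v => G.Adj y v)).image (comp G Aᶜ))).card :=
          card_le_card h1
      _ ≤ (comps G (loS G e)).card + ((A ∩ loS G e).biUnion
        (fun y => (univ.filter (fun v => G.Adj y v)).image (comp G Aᶜ))).card :=
          card_union_le _ _
      _ ≤ (comps G (loS G e)).card + A.card * (2 * A.card + k) := by
          apply Nat.add_le_add_left
          calc _ ≤ ∑ y ∈ A ∩ loS G e, ((univ.filter (fun v => G.Adj y v)).image (comp G Aᶜ)).card :=
                card_biUnion_le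
            _ ≤ ∑ _y ∈ A ∩ loS G e, (2 * A.card + k) := by
                apply sum_le_sum
                intro y hy
                have h2 : dS G univ y < e := (mem_filter.mp (mem_inter.mp hy).2).2
                rw [dS] at h2
                have h3 : ((univ.filter (fun v => G.Adj y v)).image (comp G Aᶜ)).card ≤
                  (univ.filter (fun v => G.Adj y v)).card := card_image_le
                omega
            _ = (A ∩ loS G e).card * (2 * A.card + k) := by rw [sum_const, smul_eq_mul]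
            _ ≤ A.card * (2 * A.card + k) :=
                Nat.mul_le_mul_right _ (card_le_card inter_subset_left)
  omega

theorem rec_of (G : SimpleGraph V) (P : Prop) (h : ∀ (H : SimpleGraph V) (π : V → Equiv.Perm V),
    Hypo G H π → NonIso G H → ¬ P) (hP : P) : Reconstructible G ∧ Reconstructible Gᶜ := by
  constructor
  · by_contra hcon
    obtain ⟨H, π, hH, hN⟩ := exists_hypo G hcon
    exact h H π hH hN hP
  · by_contra hcon
    obtain ⟨H, π, hH, hN⟩ := exists_hypo Gᶜ hcon
    obtain ⟨hH', hN'⟩ := compl_hypo hH hN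
    exact h _ π hH' hN' hP

/-- the degree gap form -/
theorem gap_form (G : SimpleGraph V) (e t : ℕ)
    (he : ∀ v, (univ.filter (fun y => G.Adj v y)).card ≠ e)
    (ht : 2 * (Nat.card (G.induce {v | e < (univ.filter (fun y => G.Adj v y)).card} ≃g
      G.induce {v | e < (univ.filter (fun y => G.Adj v y)).card}) : ℝ) < (3 / 2 : ℝ) ^ t)
    (hm : t ^ 2 ≤
      Nat.card (G.induce {v | (univ.filter (fun y => G.Adj v y)).card < e}).ConnectedComponent) :
    Reconstructible G ∧ Reconstructible Gᶜ := by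
  refine rec_of G _ (fun H π hH hN => not_le.mpr ?_) hm
  have h0 := card_relAut_le_aut G (hiS G e) (loS G e) (by
    intro x hx
    rw [hiS, mem_filter] at hx
    rw [loS, mem_filter]
    omega) {v | e < (univ.filter (fun y => G.Adj v y)).card} (fun x => by
      rw [hiS, mem_filter, Set.mem_ofPred_eq]
      exact ⟨fun h => ⟨mem_univ _, h⟩, fun h => h.2⟩)
  have h1 := gap_bound hH hN e he t (by
    refine lt_of_le_of_lt ?_ ht
    have : (Nat.card (relAut G (hiS G e) (loS G e)) : ℝ) ≤
        (Nat.card (G.induce {v | e < (univ.filter (fun y => G.Adj v y)).card} ≃g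
      G.induce {v | e < (univ.filter (fun y => G.Adj v y)).card}) : ℝ) := by
      exact_mod_cast h0
    linarith)
  have h2 := card_components_le G (loS G e)
    {v | (univ.filter (fun y => G.Adj v y)).card < e} (fun x => by
      rw [loS, mem_filter, Set.mem_ofPred_eq]
      exact ⟨fun h => ⟨mem_univ _, h⟩, fun h => h.2⟩)
  omega

/-- the general form -/
theorem comp_form (G : SimpleGraph V) (A : Finset V) (k t : ℕ)
    (hk : ∀ v, v ∉ A → (univ.filter (fun y => y ∉ A ∧ G.Adj v y)).card ≤ k)
    (ht : 2 * (A.card.factorial : ℝ) < (3 / 2 : ℝ) ^ t)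
    (hm : t ^ 2 + A.card * (2 * A.card + k) ≤
      Nat.card (G.induce {v | v ∉ A}).ConnectedComponent) :
    Reconstructible G ∧ Reconstructible Gᶜ := by
  refine rec_of G _ (fun H π hH hN => not_le.mpr ?_) hm
  have h1 := count_bound hH hN A k hk t ht
  have h2 := card_components_le G Aᶜ {v | v ∉ A} (fun x => by
    rw [mem_compl, Set.mem_ofPred_eq])
  omega

/-- the size of a component in terms of the induced graph -/
theorem card_comp_le (G : SimpleGraph V) (A : Finset V) (m : ℕ)
    (h : ∀ c : (G.induce {v | v ∉ A}).ConnectedComponent, c.supp.ncard ≤ m)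
    (x : V) (hx : x ∉ A) : (comp G Aᶜ x).card ≤ m := by
  have key : ∀ a b : V, rch G Aᶜ a b → ∀ (ha : a ∉ A), ∃ hb : b ∉ A,
      (G.induce {v | v ∉ A}).Reachable ⟨a, ha⟩ ⟨b, hb⟩ := by
    intro a b h
    induction h with
    | refl => intro ha; exact ⟨ha, SimpleGraph.Reachable.refl _⟩
    | tail h1 h2 ih =>
      intro ha
      obtain ⟨hb, h3⟩ := ih ha
      have hc := mem_compl.mp h2.2.1
      refine ⟨hc, h3.trans (SimpleGraph.Adj.reachable ?_)⟩
      exact h2.2.2
  refine le_trans ?_ (h ((G.induce {v | v ∉ A}).connectedComponentMk ⟨x, hx⟩))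
  rw [← Set.ncard_coe_finset]
  have hsub : ((comp G Aᶜ x : Finset V) : Set V) ⊆
      Subtype.val '' ((G.induce {v | v ∉ A}).connectedComponentMk ⟨x, hx⟩).supp := by
    intro y hy
    rw [mem_coe, mem_comp] at hy
    obtain ⟨hb, hr⟩ := key x y hy.2 hx
    refine ⟨⟨y, hb⟩, ?_, rfl⟩
    rw [SimpleGraph.ConnectedComponent.mem_supp_iff, SimpleGraph.ConnectedComponent.eq]
    exact hr.symm
  refine (Set.ncard_le_ncard hsub (Set.toFinite _)).trans ?_
  exact Set.ncard_image_le (Set.toFinite _)

/-- the form with bounded components -/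
theorem order_form (G : SimpleGraph V) (A : Finset V) (k : ℕ)
    (hk : ∀ c : (G.induce {v | v ∉ A}).ConnectedComponent, c.supp.ncard ≤ k + 1)
    (hm : (A.card : ℝ) + ((k : ℝ) + 1) * ((5 / 2 * ((A.card : ℝ) * Real.log A.card) + 3) ^ 2 +
        (A.card : ℝ) * (2 * (A.card : ℝ) + (k : ℝ))) ≤ Fintype.card V) :
    Reconstructible G ∧ Reconstructible Gᶜ := by
  refine rec_of G _ (fun H π hH hN => not_le.mpr ?_) hm
  have hk' : ∀ v, v ∉ A → (univ.filter (fun y => y ∉ A ∧ G.Adj v y)).card ≤ k := by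
    intro v hv
    have h1 := card_comp_le G A (k + 1) hk v hv
    have h2 : insert v (univ.filter (fun y => y ∉ A ∧ G.Adj v y)) ⊆ comp G Aᶜ v := by
      intro y hy
      rw [mem_insert, mem_filter] at hy
      rcases hy with rfl | ⟨_, h3, h4⟩
      · exact comp_self G _ _ (mem_compl.mpr hv)
      · rw [mem_comp]
        exact ⟨mem_compl.mpr h3, Relation.ReflTransGen.single
          ⟨mem_compl.mpr hv, mem_compl.mpr h3, h4⟩⟩
    have h3 := card_le_card h2
    rw [card_insert_of_notMem] at h3
    · omega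
    · rw [mem_filter]
      rintro ⟨_, _, h4⟩
      exact h4.ne rfl
  obtain ⟨t, ht1, ht2⟩ := exists_t A.card
  have h0 : ((comps G Aᶜ).card : ℝ) < (t : ℝ) ^ 2 + A.card * (2 * A.card + k) := by
    exact_mod_cast count_bound hH hN A k hk' t ht1
  have h01 : (t : ℝ) ^ 2 ≤ (5 / 2 * ((A.card : ℝ) * Real.log A.card) + 3) ^ 2 :=
    pow_le_pow_left₀ (Nat.cast_nonneg _) ht2 2
  have h1 : ((comps G Aᶜ).card : ℝ) < (5 / 2 * ((A.card : ℝ) * Real.log A.card) + 3) ^ 2 +
      A.card * (2 * A.card + k) := by linarith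
  have h2 : (Aᶜ : Finset V).card ≤ (comps G Aᶜ).card * (k + 1) := by
    rw [← card_comps G Aᶜ, ← smul_eq_mul, ← sum_const]
    apply sum_le_sum
    intro D hD
    obtain ⟨x, hx, rfl⟩ := (mem_comps G _ D).mp hD
    exact card_comp_le G A (k + 1) hk x (mem_compl.mp hx)
  have h3 : Fintype.card V = A.card + (Aᶜ : Finset V).card := by
    rw [card_compl]
    have := card_le_univ A
    omega
  have h4 : (Fintype.card V : ℝ) ≤ A.card + (comps G Aᶜ).card * ((k : ℝ) + 1) := by
    rw [h3]
    push_cast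
    have : ((Aᶜ : Finset V).card : ℝ) ≤ (comps G Aᶜ).card * ((k : ℝ) + 1) := by exact_mod_cast h2
    linarith
  have h5 : (0 : ℝ) < (k : ℝ) + 1 := by positivity
  have h6 := mul_lt_mul_of_pos_left h1 h5
  linarith

end Pool.Agent.TH87.RVE
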