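import Mathlib

set_option autoImplicit false
set_option linter.unusedSectionVars false

namespace Pool.Agent.TH87.RVE

open Finset Classical

variable {V : Type} [Fintype V]

/-- adjacency inside `U` -/
def RR (K : SimpleGraph V) (U : Finset V) (a b : V) : Prop := a ∈ U ∧ b ∈ U ∧ K.Adj a b

/-- joined by a path inside `U` -/
def rch (K : SimpleGraph V) (U : Finset V) : V → V → Prop := Relation.ReflTransGen (RR K U)

theorem rch_symm (K : SimpleGraph V) (U : Finset V) {a b : V} (h : rch K U a b) : rch K U b a := by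
  induction h with
  | refl => exact Relation.ReflTransGen.refl
  | tail h1 h2 ih => exact Relation.ReflTransGen.head ⟨h2.2.1, h2.1, h2.2.2.symm⟩ ih

theorem rch_trans (K : SimpleGraph V) (U : Finset V) {a b c : V} (h : rch K U a b)
    (h' : rch K U b c) : rch K U a c := Relation.ReflTransGen.trans h h'

/-- the component of `x` in `U` -/
noncomputable def comp (K : SimpleGraph V) (U : Finset V) (x : V) : Finset V :=
  U.filter (fun y => rch K U x y)

theorem mem_comp (K : SimpleGraph V) (U : Finset V) (x y : V) :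
    y ∈ comp K U x ↔ y ∈ U ∧ rch K U x y := by
  unfold comp
  rw [mem_filter]

/-- the components of `U` -/
noncomputable def comps (K : SimpleGraph V) (U : Finset V) : Finset (Finset V) := U.image (comp K U)

theorem mem_comps (K : SimpleGraph V) (U : Finset V) (D : Finset V) :
    D ∈ comps K U ↔ ∃ x ∈ U, comp K U x = D := by
  unfold comps
  rw [mem_image]

theorem comp_self (K : SimpleGraph V) (U : Finset V) (x : V) (hx : x ∈ U) : x ∈ comp K U x :=
  (mem_comp K U x x).mpr ⟨hx, Relation.ReflTransGen.refl⟩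

theorem comp_sub (K : SimpleGraph V) (U : Finset V) (x : V) : comp K U x ⊆ U := filter_subset _ _

theorem comp_eq (K : SimpleGraph V) (U : Finset V) (x y : V) (h : y ∈ comp K U x) :
    comp K U y = comp K U x := by
  ext z
  rw [mem_comp] at *
  rw [mem_comp]
  constructor
  · rintro ⟨h1, h2⟩
    exact ⟨h1, rch_trans K U h.2 h2⟩
  · rintro ⟨h1, h2⟩
    exact ⟨h1, rch_trans K U (rch_symm K U h.2) h2⟩

theorem comp_of_mem (K : SimpleGraph V) (U D : Finset V) (hD : D ∈ comps K U) (x : V) (hx : x ∈ D) :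
    comp K U x = D := by
  obtain ⟨y, hy, rfl⟩ := (mem_comps K U D).mp hD
  exact comp_eq K U y x hx

theorem comps_sub (K : SimpleGraph V) (U D : Finset V) (hD : D ∈ comps K U) : D ⊆ U := by
  obtain ⟨y, hy, rfl⟩ := (mem_comps K U D).mp hD
  exact comp_sub K U y

theorem comps_nonempty (K : SimpleGraph V) (U D : Finset V) (hD : D ∈ comps K U) : D.Nonempty := by
  obtain ⟨y, hy, rfl⟩ := (mem_comps K U D).mp hD
  exact ⟨y, comp_self K U y hy⟩

theorem comp_mem_comps (K : SimpleGraph V) (U : Finset V) (x : V) (hx : x ∈ U) :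
    comp K U x ∈ comps K U := (mem_comps K U _).mpr ⟨x, hx, rfl⟩

theorem comp_closed (K : SimpleGraph V) (U D : Finset V) (hD : D ∈ comps K U) (x y : V)
    (hx : x ∈ D) (hy : y ∈ U) (h : K.Adj x y) : y ∈ D := by
  rw [← comp_of_mem K U D hD x hx, mem_comp]
  exact ⟨hy, Relation.ReflTransGen.single ⟨comps_sub K U D hD hx, hy, h⟩⟩

theorem rch_mono (K : SimpleGraph V) (U U' : Finset V) (h : U ⊆ U') {a b : V} (hr : rch K U a b) :
    rch K U' a b := by
  induction hr with
  | refl => exact Relation.ReflTransGen.refl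
  | tail h1 h2 ih => exact Relation.ReflTransGen.tail ih ⟨h h2.1, h h2.2.1, h2.2.2⟩

/-- a set closed under adjacency contains the paths which start in it -/
theorem rch_closed (K : SimpleGraph V) (U W : Finset V)
    (hW : ∀ x ∈ W, ∀ y ∈ U, K.Adj x y → y ∈ W) {a b : V} (ha : a ∈ W) (hr : rch K U a b) :
    b ∈ W ∧ rch K W a b := by
  induction hr with
  | refl => exact ⟨ha, Relation.ReflTransGen.refl⟩
  | tail h1 h2 ih =>
    have h3 := hW _ ih.1 _ h2.2.1 h2.2.2
    exact ⟨h3, Relation.ReflTransGen.tail ih.2 ⟨ih.1, h3, h2.2.2⟩⟩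

theorem comp_closed_eq (K : SimpleGraph V) (U W : Finset V) (hWU : W ⊆ U)
    (hW : ∀ x ∈ W, ∀ y ∈ U, K.Adj x y → y ∈ W) (x : V) (hx : x ∈ W) :
    comp K U x = comp K W x := by
  ext y
  rw [mem_comp, mem_comp]
  constructor
  · rintro ⟨_, h2⟩
    exact rch_closed K U W hW hx h2
  · rintro ⟨h1, h2⟩
    exact ⟨hWU h1, rch_mono K W U hWU h2⟩

theorem comps_union (K : SimpleGraph V) (W Z : Finset V)
    (h : ∀ x ∈ W, ∀ y ∈ Z, ¬ K.Adj x y) : comps K (W ∪ Z) = comps K W ∪ comps K Z := by
  have h1 : ∀ x ∈ W, ∀ y ∈ W ∪ Z, K.Adj x y → y ∈ W := by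
    intro x hx y hy hadj
    rcases mem_union.mp hy with h2 | h2
    · exact h2
    · exact absurd hadj (h x hx y h2)
  have h2 : ∀ x ∈ Z, ∀ y ∈ W ∪ Z, K.Adj x y → y ∈ Z := by
    intro x hx y hy hadj
    rcases mem_union.mp hy with h2 | h2
    · exact absurd hadj.symm (h y h2 x hx)
    · exact h2
  unfold comps
  rw [image_union]
  congr 1
  · exact image_congr (fun x hx => comp_closed_eq K _ W subset_union_left h1 x hx)
  · exact image_congr (fun x hx => comp_closed_eq K _ Z subset_union_right h2 x hx)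

theorem comps_disjoint (K : SimpleGraph V) (W Z : Finset V) (h : Disjoint W Z) :
    Disjoint (comps K W) (comps K Z) := by
  rw [Finset.disjoint_left]
  intro D h1 h2
  obtain ⟨x, hx⟩ := comps_nonempty K W D h1
  exact (Finset.disjoint_left.mp h) (comps_sub K W D h1 hx) (comps_sub K Z D h2 hx)

/-- a component has one component -/
theorem comps_comp (K : SimpleGraph V) (U D : Finset V) (hD : D ∈ comps K U) : comps K D = {D} := by
  have hc : ∀ x ∈ D, comp K D x = D := by
    intro x hx
    rw [← comp_closed_eq K U D (comps_sub K U D hD)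
      (fun x hx y hy h => comp_closed K U D hD x y hx hy h) x hx]
    exact comp_of_mem K U D hD x hx
  ext E
  rw [mem_comps, mem_singleton]
  constructor
  · rintro ⟨x, hx, rfl⟩
    exact hc x hx
  · rintro rfl
    obtain ⟨x, hx⟩ := comps_nonempty K U E hD
    exact ⟨x, hx, hc x hx⟩

theorem comps_eq_union (K : SimpleGraph V) (U D : Finset V) (hD : D ∈ comps K U) :
    comps K U = {D} ∪ comps K (U \ D) := by
  have h := comps_union K D (U \ D) (fun x hx y hy hadj =>
    (mem_sdiff.mp hy).2 (comp_closed K U D hD x y hx (mem_sdiff.mp hy).1 hadj))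
  rw [union_sdiff_of_subset (comps_sub K U D hD), comps_comp K U D hD] at h
  exact h

theorem comps_erase (K : SimpleGraph V) (U D : Finset V) (hD : D ∈ comps K U) (v : V) (hv : v ∈ D) :
    comps K (U.erase v) = comps K (D.erase v) ∪ comps K (U \ D) := by
  have h := comps_union K (D.erase v) (U \ D) (fun x hx y hy hadj =>
    (mem_sdiff.mp hy).2 (comp_closed K U D hD x y (mem_erase.mp hx).2 (mem_sdiff.mp hy).1 hadj))
  rw [← h]
  congr 1
  ext x
  have hs := comps_sub K U D hD
  simp only [mem_erase, mem_union, mem_sdiff]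
  constructor
  · rintro ⟨h1, h2⟩
    by_cases hx : x ∈ D
    · exact Or.inl ⟨h1, hx⟩
    · exact Or.inr ⟨h2, hx⟩
  · rintro (⟨h1, h2⟩ | ⟨h1, h2⟩)
    · exact ⟨h1, hs h2⟩
    · exact ⟨fun e => h2 (e ▸ hv), h1⟩

/-- sums over vertices are sums over components -/
theorem sum_comps {M : Type} [AddCommMonoid M] (K : SimpleGraph V) (U : Finset V) (f : V → M) :
    ∑ x ∈ U, f x = ∑ D ∈ comps K U, ∑ x ∈ D, f x := by
  rw [← Finset.sum_fiberwise_of_maps_to (g := comp K U) (t := comps K U)
    (fun x hx => comp_mem_comps K U x hx)]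
  apply sum_congr rfl
  intro D hD
  apply sum_congr _ (fun _ _ => rfl)
  ext x
  rw [mem_filter]
  constructor
  · rintro ⟨h1, h2⟩
    rw [← h2]; exact comp_self K U x h1
  · intro hx
    exact ⟨comps_sub K U D hD hx, comp_of_mem K U D hD x hx⟩

theorem card_comps (K : SimpleGraph V) (U : Finset V) : ∑ D ∈ comps K U, D.card = U.card := by
  have h := sum_comps K U (fun _ => 1)
  simp only [sum_const, smul_eq_mul, mul_one] at h
  exact h.symm

section transport

variable (K K' : SimpleGraph V) (U U' : Finset V) (σ : Equiv.Perm V)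
  (hU : ∀ x, σ x ∈ U' ↔ x ∈ U) (hK : ∀ x y, x ∈ U → y ∈ U → (K'.Adj (σ x) (σ y) ↔ K.Adj x y))

include hU hK

theorem rch_map {a b : V} (h : rch K U a b) : rch K' U' (σ a) (σ b) := by
  induction h with
  | refl => exact Relation.ReflTransGen.refl
  | tail h1 h2 ih =>
    exact Relation.ReflTransGen.tail ih
      ⟨(hU _).mpr h2.1, (hU _).mpr h2.2.1, (hK _ _ h2.1 h2.2.1).mpr h2.2.2⟩

theorem hU_symm (x : V) : σ.symm x ∈ U ↔ x ∈ U' := by
  rw [← hU, Equiv.apply_symm_apply]

theorem hK_symm (x y : V) (hx : x ∈ U') (hy : y ∈ U') :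
    K.Adj (σ.symm x) (σ.symm y) ↔ K'.Adj x y := by
  rw [← hK _ _ ((hU_symm K K' U U' σ hU hK x).mpr hx) ((hU_symm K K' U U' σ hU hK y).mpr hy),
    Equiv.apply_symm_apply, Equiv.apply_symm_apply]

theorem comp_map (x : V) : comp K' U' (σ x) = (comp K U x).map σ.toEmbedding := by
  ext y
  rw [mem_comp, mem_map_equiv, mem_comp, hU_symm K K' U U' σ hU hK y]
  constructor
  · rintro ⟨h1, h2⟩
    refine ⟨h1, ?_⟩
    have := rch_map K' K U' U σ.symm (hU_symm K K' U U' σ hU hK)
      (hK_symm K K' U U' σ hU hK) h2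
    rwa [Equiv.symm_apply_apply] at this
  · rintro ⟨h1, h2⟩
    refine ⟨h1, ?_⟩
    have := rch_map K K' U U' σ hU hK h2
    rwa [Equiv.apply_symm_apply] at this

theorem comps_map : comps K' U' = (comps K U).image (fun D => D.map σ.toEmbedding) := by
  ext D
  rw [mem_comps, mem_image]
  constructor
  · rintro ⟨x, hx, rfl⟩
    refine ⟨comp K U (σ.symm x), comp_mem_comps K U _ ((hU_symm K K' U U' σ hU hK x).mpr hx), ?_⟩
    rw [← comp_map K K' U U' σ hU hK, Equiv.apply_symm_apply]
  · rintro ⟨E, hE, rfl⟩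
    obtain ⟨x, hx, rfl⟩ := (mem_comps K U E).mp hE
    exact ⟨σ x, (hU x).mpr hx, comp_map K K' U U' σ hU hK x⟩

end transport

/-- the number of components of the induced graph -/
theorem card_components_le (K : SimpleGraph V) (U : Finset V) (S : Set V) (hS : ∀ x, x ∈ S ↔ x ∈ U) :
    Nat.card (K.induce S).ConnectedComponent ≤ (comps K U).card := by
  have hr : ∀ c : (K.induce S).ConnectedComponent, ∃ v, (K.induce S).connectedComponentMk v = c :=
    fun c => c.exists_rep
  choose r hr using hr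
  have hrU : ∀ c, (r c : V) ∈ U := fun c => (hS _).mp (r c).2
  have key : ∀ a b : V, rch K U a b → ∀ (ha : a ∈ S), ∃ hb : b ∈ S,
      (K.induce S).Reachable ⟨a, ha⟩ ⟨b, hb⟩ := by
    intro a b h
    induction h with
    | refl => intro ha; exact ⟨ha, SimpleGraph.Reachable.refl _⟩
    | tail h1 h2 ih =>
      intro ha
      obtain ⟨hb, h3⟩ := ih ha
      have hc := (hS _).mpr h2.2.1
      refine ⟨hc, h3.trans (SimpleGraph.Adj.reachable ?_)⟩
      exact h2.2.2
  have hinj : Function.Injective (fun c : (K.induce S).ConnectedComponent =>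
      (⟨comp K U (r c), comp_mem_comps K U _ (hrU c)⟩ : {D // D ∈ comps K U})) := by
    intro c c' h
    have h1 : comp K U (r c) = comp K U (r c') := congrArg Subtype.val h
    have h2 : (r c' : V) ∈ comp K U (r c) := by
      rw [h1]; exact comp_self K U _ (hrU c')
    obtain ⟨_, h3⟩ := key _ _ ((mem_comp K U _ _).mp h2).2 (r c).2
    rw [← hr c, ← hr c']
    exact SimpleGraph.ConnectedComponent.eq.mpr h3
  have := Nat.card_le_card_of_injective _ hinj
  rwa [Nat.card_eq_fintype_card (α := {D // D ∈ comps K U}), Fintype.card_coe] at this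

theorem card_erase_ge (K : SimpleGraph V) (U : Finset V) (v : V) (hv : v ∈ U) :
    (comps K U).card ≤ (comps K (U.erase v)).card + 1 := by
  have hD := comp_mem_comps K U v hv
  have hvD := comp_self K U v hv
  rw [comps_eq_union K U _ hD, comps_erase K U _ hD v hvD]
  have h1 := card_union_le {comp K U v} (comps K (U \ comp K U v))
  have h2 := card_le_card (subset_union_right (s₁ := comps K ((comp K U v).erase v))
    (s₂ := comps K (U \ comp K U v)))
  rw [card_singleton] at h1
  omega

/-- a connected set has a vertex which does not cut it -/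
theorem exists_noncut (K : SimpleGraph V) (U : Finset V) (hU : U.Nonempty)
    (h1 : (comps K U).card ≤ 1) : ∃ v ∈ U, (comps K (U.erase v)).card ≤ 1 := by
  by_contra hcon
  push Not at hcon
  obtain ⟨v0, hv0⟩ := hU
  have hconn : ∀ x ∈ U, comp K U x = U := by
    intro x hx
    apply subset_antisymm (comp_sub K U x)
    intro y hy
    have h2 := (card_le_one.mp h1) _ (comp_mem_comps K U x hx) _ (comp_mem_comps K U y hy)
    rw [h2]
    exact comp_self K U y hy
  let T : Finset (V × Finset V) := univ.filter (fun p => p.1 ∈ U ∧ p.2 ∈ comps K (U.erase p.1))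
  have hT : T.Nonempty := by
    obtain ⟨D, hD⟩ := card_pos.mp (lt_trans Nat.zero_lt_one (hcon v0 hv0))
    exact ⟨(v0, D), mem_filter.mpr ⟨mem_univ _, hv0, hD⟩⟩
  obtain ⟨⟨v, D⟩, hvD, hmax⟩ := exists_max_image T (fun p => p.2.card) hT
  obtain ⟨hv, hD⟩ := (mem_filter.mp hvD).2
  simp only at hv hD
  have hDs := comps_sub K _ D hD
  have hvnD : v ∉ D := fun h => (mem_erase.mp (hDs h)).1 rfl
  obtain ⟨x1, hx1⟩ := comps_nonempty K _ D hD
  -- a neighbour of v in D
  have hnb : ∃ x0 ∈ D, K.Adj x0 v := by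
    by_contra hno
    push Not at hno
    have hcl : ∀ x ∈ D, ∀ y ∈ U, K.Adj x y → y ∈ D := by
      intro x hx y hy hadj
      have hyv : y ≠ v := fun e => hno x hx (e ▸ hadj)
      exact comp_closed K _ D hD x y hx (mem_erase.mpr ⟨hyv, hy⟩) hadj
    have h2 : v ∈ comp K U x1 := by
      rw [hconn x1 (mem_erase.mp (hDs hx1)).2]; exact hv
    exact hvnD (rch_closed K U D hcl hx1 ((mem_comp K U _ _).mp h2).2).1
  obtain ⟨x0, hx0, hadj⟩ := hnb
  -- a vertex outside
  have hout : ∃ u ∈ U.erase v, u ∉ D := by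
    by_contra hno
    push Not at hno
    have hDe : D = U.erase v := subset_antisymm hDs hno
    have h2 := comps_comp K _ D hD
    have h3 := hcon v hv
    rw [← hDe, h2, card_singleton] at h3
    omega
  obtain ⟨u, hu, huD⟩ := hout
  have huv := (mem_erase.mp hu).1
  have huU := (mem_erase.mp hu).2
  have hvu : v ∈ U.erase u := mem_erase.mpr ⟨fun e => huv e.symm, hv⟩
  have hDu : D ⊆ U.erase u := fun x hx =>
    mem_erase.mpr ⟨fun e => huD (e ▸ hx), (mem_erase.mp (hDs hx)).2⟩
  have hsub : insert v D ⊆ comp K (U.erase u) v := by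
    intro y hy
    rw [mem_insert] at hy
    rcases hy with rfl | hy
    · exact comp_self K _ _ hvu
    · rw [mem_comp]
      refine ⟨hDu hy, rch_trans K _ (Relation.ReflTransGen.single ⟨hvu, hDu hx0, hadj.symm⟩) ?_⟩
      apply rch_mono K D _ hDu
      have h2 : y ∈ comp K (U.erase v) x0 := by
        rw [comp_of_mem K _ D hD x0 hx0]; exact hy
      exact (rch_closed K (U.erase v) D (fun x hx y hy h => comp_closed K _ D hD x y hx hy h) hx0
        ((mem_comp K _ _ _).mp h2).2).2
  have h2 := card_le_card hsub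
  rw [card_insert_of_notMem hvnD] at h2
  have h3 := hmax (u, comp K (U.erase u) v)
    (mem_filter.mpr ⟨mem_univ _, huU, comp_mem_comps K _ _ hvu⟩)
  simp only at h3
  omega

end Pool.Agent.TH87.RVE
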