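import Pool.Agent.TH87.RVC.Bound

set_option autoImplicit false
set_option linter.unusedSectionVars false

namespace Pool.Agent.TH87.RVE

open Finset
open Pool.Agent.TH87.RVC (FF FF_inv del hh supp_bound val_attained)

variable {X Γ : Type} [Fintype X] [DecidableEq X] [Group Γ] [Fintype Γ] (φ : Γ →* Equiv.Perm X)

theorem half_bound (N : ℕ) (hN : 0 < N) (w w' : X → ℕ) (hw : ∑ x, w x = N) (hw' : ∑ x, w' x = N)
    (hk : ∀ c : X → ℕ, ∑ x, c x < N → FF φ c w = FF φ c w')
    (y y' : X) (g : Γ) (hg : ∀ x, del w' y' (φ g x) = del w y x)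
    (hne : ¬ ∃ γ : Γ, ∀ x, w' (φ γ x) = w x)
    (hP : ∏ x, hh (w' x) ≤ ∏ x, hh (w x)) :
    ∃ s : ℕ, N ≤ s * (s + 2) ∧ (3 / 2 : ℝ) ^ s ≤ 2 * Fintype.card Γ := by
  classical
  refine ⟨(univ.filter (fun x => w x ≠ 0)).card, ?_,
    supp_bound φ w w' _ hw hw' hk hne hP⟩
  set S := univ.filter (fun x => w x ≠ 0) with hS
  have hX : (univ : Finset X).Nonempty := ⟨y, mem_univ _⟩
  obtain ⟨x0, _, hx0⟩ := exists_max_image univ w hX
  set q := w x0 with hq
  have hle : ∀ x, w x ≤ q := fun x => hx0 x (mem_univ x)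
  have hval := val_attained φ w w' _ hw hw' hk hne q x0 rfl hle
  -- the two exceptional values
  set p1 := w y - 1 with hp1
  set p2 := del w y ((φ g).symm y') + 1 with hp2
  have hsub : Finset.Icc 1 q ⊆ (S.image w) ∪ {p1, p2} := by
    intro v hv
    rw [mem_Icc] at hv
    rw [mem_union]
    rcases eq_or_lt_of_le hv.2 with h | h
    · left
      rw [mem_image]
      exact ⟨x0, by rw [hS, mem_filter]; exact ⟨mem_univ _, by omega⟩, h.symm⟩
    · rcases hval v h with ⟨x, hx⟩ | ⟨x, hx⟩
      · left
        rw [mem_image]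
        exact ⟨x, by rw [hS, mem_filter]; exact ⟨mem_univ _, by omega⟩, hx⟩
      · have hx1 := hg ((φ g).symm x)
        rw [Equiv.apply_symm_apply] at hx1
        by_cases h1 : x = y'
        · right
          subst h1
          rw [mem_insert, mem_singleton]
          right
          rw [hp2, ← hx1]
          simp only [del, if_true]
          omega
        · have h2 : del w' y' x = v := by simp [del, h1, hx]
          rw [h2] at hx1
          by_cases h3 : (φ g).symm x = y
          · right
            rw [mem_insert]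
            left
            rw [hx1, h3]
            simp [del, hp1]
          · left
            rw [mem_image]
            have h4 : w ((φ g).symm x) = v := by
              rw [hx1]; simp [del, h3]
            exact ⟨(φ g).symm x, by rw [hS, mem_filter]; exact ⟨mem_univ _, by omega⟩, h4⟩
  have hcard : q ≤ S.card + 2 := by
    calc q = (Finset.Icc 1 q).card := by simp
      _ ≤ ((S.image w) ∪ {p1, p2}).card := card_le_card hsub
      _ ≤ (S.image w).card + ({p1, p2} : Finset ℕ).card := card_union_le _ _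
      _ ≤ S.card + 2 := add_le_add card_image_le (card_le_two)
  have hsum : ∑ x, w x = ∑ x ∈ S, w x := by
    rw [hS, sum_filter]
    apply sum_congr rfl
    intro x _
    by_cases h : w x = 0
    · simp [h]
    · simp [h]
  calc N = ∑ x ∈ S, w x := by rw [← hw, hsum]
    _ ≤ ∑ _x ∈ S, q := sum_le_sum (fun x _ => hle x)
    _ = S.card * q := by simp
    _ ≤ S.card * (S.card + 2) := Nat.mul_le_mul_left _ hcard

/-- two inequivalent vectors which agree on all small test functions and are adjacent have a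
bounded sum -/
theorem main_bound (N : ℕ) (hN : 0 < N) (w w' : X → ℕ) (hw : ∑ x, w x = N) (hw' : ∑ x, w' x = N)
    (hk : ∀ c : X → ℕ, ∑ x, c x < N → FF φ c w = FF φ c w')
    (y y' : X) (g : Γ) (hg : ∀ x, del w' y' (φ g x) = del w y x)
    (hne : ¬ ∃ γ : Γ, ∀ x, w' (φ γ x) = w x) :
    ∃ s : ℕ, N ≤ s * (s + 2) ∧ (3 / 2 : ℝ) ^ s ≤ 2 * Fintype.card Γ := by
  rcases le_total (∏ x, hh (w' x)) (∏ x, hh (w x)) with hP | hP
  · exact half_bound φ N hN w w' hw hw' hk y y' g hg hne hP
  · refine half_bound φ N hN w' w hw' hw (fun c hc => (hk c hc).symm) y' y g⁻¹ ?_ ?_ hP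
    · intro x
      have := hg (φ g⁻¹ x)
      rw [← this]
      congr 1
      rw [map_inv]
      simp
    · rintro ⟨γ, hγ⟩
      apply hne
      refine ⟨γ⁻¹, fun x => ?_⟩
      have := hγ (φ γ⁻¹ x)
      have e : φ γ (φ γ⁻¹ x) = x := by
        rw [map_inv]; exact (φ γ).apply_symm_apply x
      rw [e] at this
      exact this.symm

end Pool.Agent.TH87.RVE
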