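import Pool.Agent.TH87.RVC.Multi

set_option autoImplicit false
set_option linter.unusedSectionVars false

namespace Pool.Agent.TH87.RVE

open Finset
open Pool.Agent.TH87.RVC (FF FF_inv del choose_id)

section kel

variable {X Γ V : Type} [Fintype X] [DecidableEq X] [Group Γ] [Fintype Γ] (φ : Γ →* Equiv.Perm X)

/-- add one element of type `z` -/
def ins (c : X → ℕ) (z : X) : X → ℕ := fun y => if y = z then c y + 1 else c y

theorem choose_abs (u c : ℕ) :
    (u : ℝ) * ((u - 1).choose c : ℝ) = ((c : ℝ) + 1) * (u.choose (c + 1) : ℝ) := by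
  rcases u with _ | n
  · simp
  · have h := Nat.add_one_mul_choose_eq n c
    have h2 := congrArg (fun k : ℕ => (k : ℝ)) h
    simp only [Nat.cast_mul] at h2
    push_cast at h2
    rw [Nat.add_sub_cancel]
    push_cast
    linarith

theorem prod_del (u c : X → ℕ) (z : X) :
    ∏ y, ((del u z y).choose (c y) : ℝ) =
      ((u z - 1).choose (c z) : ℝ) * ∏ y ∈ univ.erase z, ((u y).choose (c y) : ℝ) := by
  rw [← Finset.mul_prod_erase univ (fun y => ((del u z y).choose (c y) : ℝ)) (mem_univ z)]
  congr 1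
  · simp [del]
  · apply Finset.prod_congr rfl
    intro y hy
    have : y ≠ z := (mem_erase.mp hy).1
    simp [del, this]

theorem point_id (u c : X → ℕ) (z : X) :
    (u z : ℝ) * ∏ y, ((del u z y).choose (c y) : ℝ) =
      ((u z : ℝ) - c z) * ∏ y, ((u y).choose (c y) : ℝ) := by
  rw [prod_del, ← Finset.mul_prod_erase univ (fun y => ((u y).choose (c y) : ℝ)) (mem_univ z),
    ← mul_assoc, ← mul_assoc, choose_id]

theorem point_abs (u c : X → ℕ) (z : X) :
    (u z : ℝ) * ∏ y, ((del u z y).choose (c y) : ℝ) =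
      ((c z : ℝ) + 1) * ∏ y, ((u y).choose (ins c z y) : ℝ) := by
  rw [prod_del, ← Finset.mul_prod_erase univ (fun y => ((u y).choose (ins c z y) : ℝ)) (mem_univ z),
    ← mul_assoc, ← mul_assoc, choose_abs]
  congr 1
  · simp [ins]
  · apply Finset.prod_congr rfl
    intro y hy
    have : y ≠ z := (mem_erase.mp hy).1
    simp [ins, this]

/-- the vectors below `c` -/
def box (c : X → ℕ) : Finset (X → ℕ) := Fintype.piFinset (fun y => range (c y + 1))

theorem mem_box (c d : X → ℕ) : d ∈ box c ↔ ∀ y, d y ≤ c y := by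
  unfold box
  rw [Fintype.mem_piFinset]
  simp only [mem_range, Nat.lt_succ_iff]

theorem vander (a b c : X → ℕ) :
    ∏ y, ((a y + b y).choose (c y) : ℝ) =
      ∑ d ∈ box c, (∏ y, ((a y).choose (c y - d y) : ℝ)) * ∏ y, ((b y).choose (d y) : ℝ) := by
  have h1 : ∀ y, ((a y + b y).choose (c y) : ℝ) =
      ∑ j ∈ range (c y + 1), ((a y).choose (c y - j) : ℝ) * ((b y).choose j : ℝ) := by
    intro y
    rw [add_comm, Nat.add_choose_eq]
    push_cast
    rw [Finset.Nat.sum_antidiagonal_eq_sum_range_succ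
      (fun i j => ((b y).choose i : ℝ) * ((a y).choose j : ℝ))]
    apply sum_congr rfl
    intro j _
    ring
  simp_rw [h1]
  rw [Finset.prod_univ_sum]
  unfold box
  apply sum_congr rfl
  intro d _
  rw [prod_mul_distrib]

variable (sz : X → ℕ) (I : X → Finset V) (P : X → V → X → ℕ)

/-- the pointwise identity -/
theorem kel_point (hI : ∀ x, (I x).card = sz x) (u c : X → ℕ) :
    ∑ z, (u z : ℝ) * ∑ v ∈ I z, ∏ y, ((del u z y + P z v y).choose (c y) : ℝ) =
      ((∑ z, (u z : ℝ) * sz z) - ∑ z, (c z : ℝ) * sz z) * ∏ y, ((u y).choose (c y) : ℝ) +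
      ∑ z, ∑ v ∈ I z, ∑ d ∈ (box c).erase 0, (∏ y, ((P z v y).choose (d y) : ℝ)) *
        (((c z - d z : ℕ) : ℝ) + 1) * ∏ y, ((u y).choose (ins (fun y => c y - d y) z y) : ℝ) := by
  have h0 : (0 : X → ℕ) ∈ box c := (mem_box c 0).mpr (fun y => Nat.zero_le _)
  have h1 : ∀ z, ∀ v ∈ I z, (u z : ℝ) * ∏ y, ((del u z y + P z v y).choose (c y) : ℝ) =
      ((u z : ℝ) - c z) * ∏ y, ((u y).choose (c y) : ℝ) +
      ∑ d ∈ (box c).erase 0, (∏ y, ((P z v y).choose (d y) : ℝ)) *
        (((c z - d z : ℕ) : ℝ) + 1) * ∏ y, ((u y).choose (ins (fun y => c y - d y) z y) : ℝ) := by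
    intro z v _
    rw [vander, ← add_sum_erase (box c) _ h0, mul_add, mul_sum]
    congr 1
    · have e1 : ∏ y, ((P z v y).choose ((0 : X → ℕ) y) : ℝ) = 1 := by simp
      have e2 : ∀ y, ((del u z y).choose (c y - (0 : X → ℕ) y) : ℝ) = ((del u z y).choose (c y) : ℝ) := by
        intro y; simp
      rw [e1, mul_one]
      simp_rw [e2]
      exact point_id u c z
    · apply sum_congr rfl
      intro d _
      have := point_abs u (fun y => c y - d y) z
      rw [← mul_assoc, this]
      ring
  calc _ = ∑ z, ∑ v ∈ I z, (u z : ℝ) * ∏ y, ((del u z y + P z v y).choose (c y) : ℝ) := by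
        simp_rw [mul_sum]
    _ = ∑ z, ((sz z : ℝ) * (((u z : ℝ) - c z) * ∏ y, ((u y).choose (c y) : ℝ)) +
      ∑ v ∈ I z, ∑ d ∈ (box c).erase 0, (∏ y, ((P z v y).choose (d y) : ℝ)) *
        (((c z - d z : ℕ) : ℝ) + 1) * ∏ y, ((u y).choose (ins (fun y => c y - d y) z y) : ℝ)) := by
        apply sum_congr rfl
        intro z _
        rw [sum_congr rfl (h1 z), sum_add_distrib, sum_const, nsmul_eq_mul, hI]
    _ = _ := by
        rw [sum_add_distrib]
        congr 1
        rw [← sum_sub_distrib, sum_mul]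
        apply sum_congr rfl
        intro z _
        ring

/-- the sum over the deck -/
noncomputable def TT (c w : X → ℕ) : ℝ :=
  ∑ x, (w x : ℝ) * ∑ v ∈ I x, FF φ c (fun y => del w x y + P x v y)

theorem kel_id (hI : ∀ x, (I x).card = sz x) (hsz : ∀ γ x, sz (φ γ x) = sz x)
    (hE : ∀ (γ : Γ) x (f : (X → ℕ) → ℝ),
      ∑ v ∈ I (φ γ x), f (fun y => P (φ γ x) v (φ γ y)) = ∑ v ∈ I x, f (P x v))
    (c w : X → ℕ) :
    TT φ I P c w =
      ((∑ z, (w z : ℝ) * sz z) - ∑ z, (c z : ℝ) * sz z) * FF φ c w +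
      ∑ z, ∑ v ∈ I z, ∑ d ∈ (box c).erase 0, (∏ y, ((P z v y).choose (d y) : ℝ)) *
        (((c z - d z : ℕ) : ℝ) + 1) * FF φ (ins (fun y => c y - d y) z) w := by
  have h1 : TT φ I P c w = ∑ γ : Γ, ∑ z, (w (φ γ z) : ℝ) * ∑ v ∈ I z,
      ∏ y, ((del (fun x => w (φ γ x)) z y + P z v y).choose (c y) : ℝ) := by
    unfold TT FF
    have e1 : ∀ x, (w x : ℝ) * ∑ v ∈ I x, ∑ γ : Γ,
        ∏ y, ((del w x (φ γ y) + P x v (φ γ y)).choose (c y) : ℝ) =
        ∑ γ : Γ, (w x : ℝ) * ∑ v ∈ I x, ∏ y, ((del w x (φ γ y) + P x v (φ γ y)).choose (c y) : ℝ) := by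
      intro x
      rw [sum_comm, mul_sum]
    rw [sum_congr rfl (fun x _ => e1 x), sum_comm]
    apply sum_congr rfl
    intro γ _
    rw [← Equiv.sum_comp (φ γ)]
    apply sum_congr rfl
    intro z _
    congr 1
    have h2 : ∀ y, del w (φ γ z) (φ γ y) = del (fun x => w (φ γ x)) z y := by
      intro y
      simp [del]
    simp_rw [h2]
    exact hE γ z (fun p => ∏ y, ((del (fun x => w (φ γ x)) z y + p y).choose (c y) : ℝ))
  rw [h1, sum_congr rfl (fun γ _ => kel_point sz I P hI (fun x => w (φ γ x)) c), sum_add_distrib]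
  congr 1
  · unfold FF
    rw [mul_sum]
    apply sum_congr rfl
    intro γ _
    congr 2
    rw [← Equiv.sum_comp (φ γ) (fun z => (w z : ℝ) * sz z)]
    apply sum_congr rfl
    intro z _
    rw [hsz]
  · rw [sum_comm]
    apply sum_congr rfl
    intro z _
    rw [sum_comm]
    apply sum_congr rfl
    intro v _
    rw [sum_comm]
    apply sum_congr rfl
    intro d _
    unfold FF
    rw [mul_sum]

theorem FF_zero (hsz : ∀ γ x, sz (φ γ x) = sz x) (w c : X → ℕ)
    (hw0 : ∀ x, sz x = 0 → w x = 0) (h1 : ∑ x, w x * sz x ≤ ∑ x, c x * sz x)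
    (h2 : ∑ x, c x < ∑ x, w x) : FF φ c w = 0 := by
  unfold FF
  apply sum_eq_zero
  intro γ _
  by_contra hne
  have hle : ∀ x, c x ≤ w (φ γ x) := by
    intro x
    by_contra hlt
    apply hne
    apply prod_eq_zero (mem_univ x)
    rw [Nat.choose_eq_zero_of_lt (by omega)]
    simp
  have e1 : ∑ x, w (φ γ x) * sz x = ∑ x, w x * sz x := by
    rw [← Equiv.sum_comp (φ γ) (fun z => w z * sz z)]
    apply sum_congr rfl
    intro z _
    rw [hsz]
  have e2 : ∑ x, w (φ γ x) = ∑ x, w x := Equiv.sum_comp (φ γ) w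
  have heq : ∀ x, c x = w (φ γ x) := by
    by_contra hcon
    push Not at hcon
    obtain ⟨x, hx⟩ := hcon
    have hlt : c x < w (φ γ x) := lt_of_le_of_ne (hle x) hx
    have hs : 0 < sz x := by
      rcases Nat.eq_zero_or_pos (sz x) with h | h
      · have := hw0 (φ γ x) (by rw [hsz, h])
        omega
      · exact h
    have : ∑ x, c x * sz x < ∑ x, w (φ γ x) * sz x :=
      sum_lt_sum (fun x _ => Nat.mul_le_mul_right _ (hle x))
        ⟨x, mem_univ x, Nat.mul_lt_mul_of_pos_right hlt hs⟩
    omega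
  have e3 : ∑ x, c x = ∑ x, w (φ γ x) := sum_congr rfl (fun x _ => heq x)
  omega

theorem kel_main (hI : ∀ x, (I x).card = sz x) (hsz : ∀ γ x, sz (φ γ x) = sz x)
    (hE : ∀ (γ : Γ) x (f : (X → ℕ) → ℝ),
      ∑ v ∈ I (φ γ x), f (fun y => P (φ γ x) v (φ γ y)) = ∑ v ∈ I x, f (P x v))
    (hP : ∀ x, ∀ v ∈ I x, ∑ y, P x v y * sz y + 1 = sz x)
    (w w' : X → ℕ) (hw0 : ∀ x, sz x = 0 → w x = 0) (hw0' : ∀ x, sz x = 0 → w' x = 0)
    (hs : ∑ x, w x * sz x = ∑ x, w' x * sz x)
    (hT : ∀ c, TT φ I P c w = TT φ I P c w') (m : ℕ) (hm : m ≤ ∑ x, w x) (hm' : m ≤ ∑ x, w' x) :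
    ∀ c, ∑ x, c x < m → FF φ c w = FF φ c w' := by
  have key : ∀ k, ∀ c : X → ℕ, ∑ x, w x * sz x ≤ ∑ x, c x * sz x + k → ∑ x, c x < m →
      FF φ c w = FF φ c w' := by
    intro k
    induction k with
    | zero =>
      intro c hc hcm
      rw [FF_zero φ sz hsz w c hw0 (by omega) (by omega),
        FF_zero φ sz hsz w' c hw0' (by omega) (by omega)]
    | succ k ih =>
      intro c hc hcm
      rcases le_or_gt (∑ x, w x * sz x) (∑ x, c x * sz x) with hle | hlt
      · exact ih c (by omega) hcm
      · have h1 := kel_id φ sz I P hI hsz hE c w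
        have h2 := kel_id φ sz I P hI hsz hE c w'
        have h3 : ∑ z, ∑ v ∈ I z, ∑ d ∈ (box c).erase 0, (∏ y, ((P z v y).choose (d y) : ℝ)) *
            (((c z - d z : ℕ) : ℝ) + 1) * FF φ (ins (fun y => c y - d y) z) w =
            ∑ z, ∑ v ∈ I z, ∑ d ∈ (box c).erase 0, (∏ y, ((P z v y).choose (d y) : ℝ)) *
            (((c z - d z : ℕ) : ℝ) + 1) * FF φ (ins (fun y => c y - d y) z) w' := by
          apply sum_congr rfl
          intro z _
          apply sum_congr rfl
          intro v hv
          apply sum_congr rfl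
          intro d hd
          rw [mem_erase, mem_box] at hd
          by_cases h0 : ∏ y, ((P z v y).choose (d y) : ℝ) = 0
          · rw [h0]; simp
          · congr 1
            have hdP : ∀ y, d y ≤ P z v y := by
              intro y
              by_contra hlt
              apply h0
              apply prod_eq_zero (mem_univ y)
              rw [Nat.choose_eq_zero_of_lt (by omega)]
              simp
            have hins : ∀ g : X → ℕ, ∑ y, ins (fun y => c y - d y) z y * g y =
                ∑ y, (c y - d y) * g y + g z := by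
              intro g
              have : ∀ y, ins (fun y => c y - d y) z y * g y =
                  (c y - d y) * g y + if y = z then g y else 0 := by
                intro y
                unfold ins
                by_cases hy : y = z
                · simp only [hy, if_true]; ring
                · simp [hy]
              rw [sum_congr rfl (fun y _ => this y), sum_add_distrib, sum_ite_eq' univ z]
              simp
            have hsub : ∀ g : X → ℕ, ∑ y, (c y - d y) * g y + ∑ y, d y * g y = ∑ y, c y * g y := by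
              intro g
              rw [← sum_add_distrib]
              apply sum_congr rfl
              intro y _
              rw [← Nat.add_mul]
              congr 1
              have := hd.2 y
              omega
            have hPz := hP z v hv
            have hdP2 : ∑ y, d y * sz y ≤ ∑ y, P z v y * sz y :=
              sum_le_sum (fun y _ => Nat.mul_le_mul_right _ (hdP y))
            have hd1 : 1 ≤ ∑ y, d y := by
              obtain ⟨y, hy⟩ := Function.ne_iff.mp hd.1
              have h5 : d y ≤ ∑ y, d y := single_le_sum (fun _ _ => Nat.zero_le _) (mem_univ y)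
              have h6 : d y ≠ 0 := hy
              omega
            apply ih
            · have a1 := hins sz
              have a2 := hsub sz
              omega
            · have a1 := hins (fun _ => 1)
              have a2 := hsub (fun _ => 1)
              simp only [mul_one] at a1 a2
              omega
        rw [h3] at h1
        have h4 := hT c
        rw [h1, h2] at h4
        have e1 : (∑ z, (w z : ℝ) * sz z) = ∑ z, (w' z : ℝ) * sz z := by exact_mod_cast hs
        rw [← e1] at h4
        have h5 : ((∑ z, (w z : ℝ) * sz z) - ∑ z, (c z : ℝ) * sz z) ≠ 0 := by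
          have : (∑ z, (c z : ℝ) * sz z) < ∑ z, (w z : ℝ) * sz z := by exact_mod_cast hlt
          exact sub_ne_zero.mpr (ne_of_gt this)
        exact mul_left_cancel₀ h5 (add_right_cancel h4)
  intro c hc
  exact key (∑ x, w x * sz x) c (by omega) hc

end kel

end Pool.Agent.TH87.RVE
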