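import Pool.Agent.TH87.RVC.Iso
import Pool.Agent.TH87.RVE.Comp
import Pool.Agent.TH87.RVE.Kel

set_option autoImplicit false
set_option linter.unusedSectionVars false

namespace Pool.Agent.TH87.RVE

open Finset Classical
open Pool.Agent.TH87.RVC (actF mem_actF FF FF_inv del)

section typ

/-- labelled graphs with a distinguished set of vertices -/
abbrev Str (V A : Type) := Finset V × SimpleGraph V × (V → Finset A)

variable {V A : Type} [Fintype V] [Fintype A]

/-- isomorphism of the distinguished parts, up to a permutation of the labels -/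
def RelA (α : Equiv.Perm A) (S T : Str V A) : Prop :=
  ∃ σ : Equiv.Perm V, (∀ x, σ x ∈ T.1 ↔ x ∈ S.1) ∧
    (∀ x y, x ∈ S.1 → y ∈ S.1 → (T.2.1.Adj (σ x) (σ y) ↔ S.2.1.Adj x y)) ∧
    ∀ x ∈ S.1, T.2.2 (σ x) = actF A α (S.2.2 x)

theorem relA_refl (S : Str V A) : RelA 1 S S :=
  ⟨1, fun _ => Iff.rfl, fun _ _ _ _ => Iff.rfl, fun x _ => by rw [map_one]; rfl⟩

theorem relA_symm (α : Equiv.Perm A) (S T : Str V A) (h : RelA α S T) : RelA α⁻¹ T S := by
  obtain ⟨σ, h1, h2, h3⟩ := h
  have hs : ∀ x, σ.symm x ∈ S.1 ↔ x ∈ T.1 := fun x => by rw [← h1, Equiv.apply_symm_apply]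
  refine ⟨σ.symm, hs, fun x y hx hy => ?_, fun x hx => ?_⟩
  · rw [← h2 _ _ ((hs x).mpr hx) ((hs y).mpr hy), Equiv.apply_symm_apply, Equiv.apply_symm_apply]
  · have := h3 _ ((hs x).mpr hx)
    rw [Equiv.apply_symm_apply] at this
    rw [this, map_inv]
    exact ((actF A α).symm_apply_apply _).symm

theorem relA_trans (α β : Equiv.Perm A) (S T R : Str V A) (h : RelA α S T) (k : RelA β T R) :
    RelA (β * α) S R := by
  obtain ⟨σ, h1, h2, h3⟩ := h
  obtain ⟨τ, k1, k2, k3⟩ := k
  refine ⟨τ * σ, fun x => ?_, fun x y hx hy => ?_, fun x hx => ?_⟩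
  · rw [Equiv.Perm.mul_apply, k1, h1]
  · rw [Equiv.Perm.mul_apply, Equiv.Perm.mul_apply, k2 _ _ ((h1 x).mpr hx) ((h1 y).mpr hy),
      h2 _ _ hx hy]
  · rw [Equiv.Perm.mul_apply, k3 _ ((h1 x).mpr hx), h3 _ hx, map_mul]
    rfl

/-- isomorphism -/
def strS (V A : Type) [Fintype V] [Fintype A] : Setoid (Str V A) where
  r := RelA 1
  iseqv := ⟨relA_refl, fun {S T} h => by
    have := relA_symm 1 S T h
    rwa [inv_one] at this, fun {S T R} h k => by
    have := relA_trans 1 1 S T R h k
    rwa [mul_one] at this⟩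

/-- isomorphism types -/
def Typ (V A : Type) [Fintype V] [Fintype A] : Type := Quotient (strS V A)

noncomputable instance : Fintype (Typ V A) :=
  @Fintype.ofFinite _ (inferInstanceAs (Finite (Quotient (strS V A))))

/-- the type of a structure -/
def mk (S : Str V A) : Typ V A := Quotient.mk (strS V A) S

theorem mk_eq (S T : Str V A) : mk S = mk T ↔ RelA 1 S T :=
  ⟨fun h => Quotient.exact h, fun h => Quotient.sound (s := strS V A) h⟩

/-- a representative -/
noncomputable def rep (y : Typ V A) : Str V A := Quotient.out y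

theorem mk_rep (y : Typ V A) : mk (rep y) = y := Quotient.out_eq y

theorem card_relA (α : Equiv.Perm A) (S T : Str V A) (h : RelA α S T) : S.1.card = T.1.card := by
  obtain ⟨σ, h1, _, _⟩ := h
  have : T.1 = S.1.map σ.toEmbedding := by
    ext x
    rw [mem_map_equiv, ← h1, Equiv.apply_symm_apply]
  rw [this, card_map]

/-- the number of vertices -/
noncomputable def sz (y : Typ V A) : ℕ := (rep y).1.card

theorem sz_mk (S : Str V A) : sz (mk S) = S.1.card :=
  card_relA 1 _ _ ((mk_eq _ _).mp (mk_rep (mk S)))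

/-- the action on structures -/
noncomputable def actS (α : Equiv.Perm A) (S : Str V A) : Str V A :=
  (S.1, S.2.1, fun x => actF A α (S.2.2 x))

theorem relA_actS (α : Equiv.Perm A) (S : Str V A) : RelA α S (actS α S) :=
  ⟨1, fun _ => Iff.rfl, fun _ _ _ _ => Iff.rfl, fun _ _ => rfl⟩

theorem relA_iff (α : Equiv.Perm A) (S T : Str V A) : RelA α S T ↔ mk (actS α S) = mk T := by
  rw [mk_eq]
  constructor
  · intro h
    have := relA_trans α⁻¹ α _ _ _ (relA_symm α _ _ (relA_actS α S)) h
    rwa [mul_inv_cancel] at this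
  · intro h
    have := relA_trans α 1 _ _ _ (relA_actS α S) h
    rwa [one_mul] at this

/-- the action on types -/
noncomputable def actQ (α : Equiv.Perm A) (y : Typ V A) : Typ V A := mk (actS α (rep y))

theorem actQ_mk (α : Equiv.Perm A) (S T : Str V A) : actQ α (mk S) = mk T ↔ RelA α S T := by
  unfold actQ
  rw [← relA_iff]
  have h0 := (mk_eq _ _).mp (mk_rep (mk S))
  constructor
  · intro h
    have h1 := relA_symm 1 _ _ h0
    rw [inv_one] at h1
    have := relA_trans 1 α _ _ _ h1 h
    rwa [mul_one] at this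
  · intro h
    have := relA_trans 1 α _ _ _ h0 h
    rwa [mul_one] at this

theorem actQ_one (y : Typ V A) : actQ 1 y = y := by
  rw [← mk_rep y, actQ_mk]
  exact relA_refl _

theorem actQ_mul (α β : Equiv.Perm A) (y : Typ V A) : actQ (α * β) y = actQ α (actQ β y) := by
  have h1 : RelA β (rep y) (rep (actQ β y)) := by
    rw [← actQ_mk, mk_rep, mk_rep]
  have h2 : RelA α (rep (actQ β y)) (rep (actQ α (actQ β y))) := by
    rw [← actQ_mk, mk_rep, mk_rep]
  have h3 := relA_trans β α _ _ _ h1 h2
  rwa [← actQ_mk, mk_rep, mk_rep] at h3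

/-- the action on types -/
noncomputable def actT (V A : Type) [Fintype V] [Fintype A] :
    Equiv.Perm A →* Equiv.Perm (Typ V A) where
  toFun α :=
    { toFun := actQ α
      invFun := actQ α⁻¹
      left_inv := fun y => by rw [← actQ_mul, inv_mul_cancel, actQ_one]
      right_inv := fun y => by rw [← actQ_mul, mul_inv_cancel, actQ_one] }
  map_one' := by
    ext y
    exact actQ_one y
  map_mul' α β := by
    ext y
    exact actQ_mul α β y

theorem actT_mk (α : Equiv.Perm A) (S T : Str V A) : actT V A α (mk S) = mk T ↔ RelA α S T :=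
  actQ_mk α S T

theorem actT_rep (α : Equiv.Perm A) (y : Typ V A) : RelA α (rep y) (rep (actT V A α y)) := by
  rw [← actT_mk, mk_rep, mk_rep]

theorem sz_actT (α : Equiv.Perm A) (y : Typ V A) : sz (actT V A α y) = sz y :=
  (card_relA α _ _ (actT_rep α y)).symm

/-- the number of components of a type -/
noncomputable def wt (K : SimpleGraph V) (N : V → Finset A) (U : Finset V) (y : Typ V A) : ℕ :=
  ((comps K U).filter (fun D => mk (D, K, N) = y)).card

theorem wt_map (K K' : SimpleGraph V) (N N' : V → Finset A) (U U' : Finset V) (σ : Equiv.Perm V)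
    (α : Equiv.Perm A) (hU : ∀ x, σ x ∈ U' ↔ x ∈ U)
    (hK : ∀ x y, x ∈ U → y ∈ U → (K'.Adj (σ x) (σ y) ↔ K.Adj x y))
    (hN : ∀ x ∈ U, N' (σ x) = actF A α (N x)) (y : Typ V A) :
    wt K' N' U' (actT V A α y) = wt K N U y := by
  unfold wt
  rw [comps_map K K' U U' σ hU hK, filter_image,
    card_image_of_injective _ (Finset.map_injective σ.toEmbedding)]
  congr 1
  apply filter_congr
  intro D hD
  have hDU := comps_sub K U D hD
  have h1 : RelA α (D, K, N) (D.map σ.toEmbedding, K', N') := by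
    refine ⟨σ, fun x => ?_, fun x y hx hy => hK x y (hDU hx) (hDU hy), fun x hx => hN x (hDU hx)⟩
    show σ x ∈ D.map σ.toEmbedding ↔ _
    rw [mem_map_equiv, Equiv.symm_apply_apply]
  rw [← (actT_mk α _ _).mpr h1]
  exact (actT V A α).apply_eq_iff_eq

theorem sum_wt {M : Type} [AddCommMonoid M] (K : SimpleGraph V) (N : V → Finset A) (U : Finset V)
    (g : Typ V A → M) : ∑ y, wt K N U y • g y = ∑ D ∈ comps K U, g (mk (D, K, N)) := by
  rw [← Finset.sum_fiberwise (comps K U) (fun D => mk (D, K, N)) (fun D => g (mk (D, K, N)))]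
  apply sum_congr rfl
  intro y _
  rw [wt, ← Finset.sum_const]
  apply sum_congr rfl
  intro D hD
  rw [(mem_filter.mp hD).2]

theorem sum_wt_card (K : SimpleGraph V) (N : V → Finset A) (U : Finset V) :
    ∑ y, wt K N U y = (comps K U).card := by
  have h := sum_wt K N U (fun _ => 1)
  simp only [smul_eq_mul, mul_one, sum_const] at h
  exact h

theorem sum_wt_sz (K : SimpleGraph V) (N : V → Finset A) (U : Finset V) :
    ∑ y, wt K N U y * sz y = U.card := by
  have h := sum_wt K N U (fun y => sz y)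
  simp only [smul_eq_mul] at h
  rw [h, ← card_comps K U]
  apply sum_congr rfl
  intro D _
  exact sz_mk _

theorem wt_pos (K : SimpleGraph V) (N : V → Finset A) (U : Finset V) (y : Typ V A)
    (h : wt K N U y ≠ 0) : ∃ D ∈ comps K U, mk (D, K, N) = y := by
  unfold wt at h
  obtain ⟨D, hD⟩ := card_pos.mp (Nat.pos_of_ne_zero h)
  exact ⟨D, (mem_filter.mp hD).1, (mem_filter.mp hD).2⟩

theorem wt_zero (K : SimpleGraph V) (N : V → Finset A) (U : Finset V) (y : Typ V A)
    (h : sz y = 0) : wt K N U y = 0 := by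
  by_contra hne
  obtain ⟨D, hD, rfl⟩ := wt_pos K N U y hne
  rw [sz_mk] at h
  have := card_pos.mpr (comps_nonempty K U D hD)
  simp only at h
  omega

theorem wt_large (K : SimpleGraph V) (N : V → Finset A) (U : Finset V) (y : Typ V A)
    (h : U.card < sz y) : wt K N U y = 0 := by
  by_contra hne
  obtain ⟨D, hD, rfl⟩ := wt_pos K N U y hne
  rw [sz_mk] at h
  have := card_le_card (comps_sub K U D hD)
  simp only at h
  omega

theorem wt_comp (K : SimpleGraph V) (N : V → Finset A) (U D : Finset V) (hD : D ∈ comps K U)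
    (y : Typ V A) : wt K N U y = (if mk (D, K, N) = y then 1 else 0) + wt K N (U \ D) y := by
  unfold wt
  have h1 : Disjoint ({D} : Finset (Finset V)) (comps K (U \ D)) := by
    rw [Finset.disjoint_singleton_left]
    intro h
    obtain ⟨x, hx⟩ := comps_nonempty K U D hD
    exact (mem_sdiff.mp (comps_sub K _ D h hx)).2 hx
  rw [comps_eq_union K U D hD, filter_union, card_union_of_disjoint (disjoint_filter_filter h1)]
  congr 1
  rw [filter_singleton]
  split_ifs <;> simp

theorem wt_erase (K : SimpleGraph V) (N : V → Finset A) (U D : Finset V) (hD : D ∈ comps K U)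
    (v : V) (hv : v ∈ D) (y : Typ V A) :
    wt K N (U.erase v) y = wt K N (D.erase v) y + wt K N (U \ D) y := by
  unfold wt
  have h1 : Disjoint (comps K (D.erase v)) (comps K (U \ D)) := by
    apply comps_disjoint
    rw [Finset.disjoint_left]
    intro x hx hx'
    exact (mem_sdiff.mp hx').2 (mem_erase.mp hx).2
  rw [comps_erase K U D hD v hv, filter_union, card_union_of_disjoint (disjoint_filter_filter h1)]

theorem wt_del (K : SimpleGraph V) (N : V → Finset A) (U D : Finset V) (hD : D ∈ comps K U)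
    (y : Typ V A) : del (wt K N U) (mk (D, K, N)) y = wt K N (U \ D) y := by
  unfold del
  rw [wt_comp K N U D hD y]
  by_cases h : y = mk (D, K, N)
  · rw [if_pos h, if_pos h.symm]; omega
  · rw [if_neg h, if_neg (fun e => h e.symm)]; omega

theorem wt_erase' (K : SimpleGraph V) (N : V → Finset A) (U D : Finset V) (hD : D ∈ comps K U)
    (v : V) (hv : v ∈ D) (y : Typ V A) :
    wt K N (U.erase v) y = del (wt K N U) (mk (D, K, N)) y + wt K N (D.erase v) y := by
  rw [wt_erase K N U D hD v hv, wt_del K N U D hD, add_comm]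

/-- the vertices of the representative -/
noncomputable def II (y : Typ V A) : Finset V := (rep y).1

/-- the pieces left by a vertex of the representative -/
noncomputable def PP (y : Typ V A) (v : V) : Typ V A → ℕ :=
  wt (rep y).2.1 (rep y).2.2 ((rep y).1.erase v)

theorem sum_relA {M : Type} [AddCommMonoid M] (α : Equiv.Perm A) (S T : Str V A) (h : RelA α S T)
    (f : (Typ V A → ℕ) → M) :
    ∑ v ∈ T.1, f (fun z => wt T.2.1 T.2.2 (T.1.erase v) (actT V A α z)) =
      ∑ v ∈ S.1, f (wt S.2.1 S.2.2 (S.1.erase v)) := by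
  obtain ⟨σ, h1, h2, h3⟩ := h
  have hT : T.1 = S.1.map σ.toEmbedding := by
    ext x
    rw [mem_map_equiv, ← h1, Equiv.apply_symm_apply]
  have e1 : ∑ v ∈ T.1, f (fun z => wt T.2.1 T.2.2 (T.1.erase v) (actT V A α z)) =
      ∑ v ∈ S.1, f (fun z => wt T.2.1 T.2.2 (T.1.erase (σ v)) (actT V A α z)) := by
    conv_lhs => rw [hT]
    rw [sum_map]
    rw [← hT]
    rfl
  rw [e1]
  apply sum_congr rfl
  intro v hv
  congr 1
  funext z
  apply wt_map _ _ _ _ _ _ σ α
  · intro x
    rw [mem_erase, mem_erase, h1, σ.injective.ne_iff]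
  · intro x y hx hy
    exact h2 x y (mem_erase.mp hx).2 (mem_erase.mp hy).2
  · intro x hx
    exact h3 x (mem_erase.mp hx).2

theorem card_II (y : Typ V A) : (II y).card = sz y := rfl

theorem sum_PP (y : Typ V A) (v : V) (hv : v ∈ II y) : ∑ z, PP y v z * sz z + 1 = sz y := by
  unfold PP
  rw [sum_wt_sz, card_erase_of_mem (show v ∈ (rep y).1 from hv)]
  have : 0 < (rep y).1.card := card_pos.mpr ⟨v, hv⟩
  unfold sz
  omega

theorem hE (α : Equiv.Perm A) (y : Typ V A) (f : (Typ V A → ℕ) → ℝ) :
    ∑ v ∈ II (actT V A α y), f (fun z => PP (actT V A α y) v (actT V A α z)) =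
      ∑ v ∈ II y, f (PP y v) :=
  sum_relA α _ _ (actT_rep α y) f

theorem sum_typ (K : SimpleGraph V) (N : V → Finset A) (D : Finset V) (f : (Typ V A → ℕ) → ℝ) :
    ∑ v ∈ II (mk (D, K, N)), f (PP (mk (D, K, N)) v) = ∑ v ∈ D, f (wt K N (D.erase v)) := by
  have h := sum_relA 1 _ _ ((mk_eq _ _).mp (mk_rep (mk (D, K, N)))) f
  rw [map_one] at h
  exact h.symm

/-- the sum over the deck in terms of types -/
theorem TT_eq {Γ : Type} [Group Γ] [Fintype Γ] (φ : Γ →* Equiv.Perm (Typ V A))
    (K : SimpleGraph V) (N : V → Finset A) (U : Finset V) (c : Typ V A → ℕ) :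
    TT φ II PP c (wt K N U) = ∑ v ∈ U, FF φ c (wt K N (U.erase v)) := by
  unfold TT
  have h1 := sum_wt K N U (fun x => ∑ v ∈ II x, FF φ c (fun y => del (wt K N U) x y + PP x v y))
  simp only [nsmul_eq_mul] at h1
  rw [h1, sum_comps K U]
  apply sum_congr rfl
  intro D hD
  rw [sum_typ K N D (fun p => FF φ c (fun y => del (wt K N U) (mk (D, K, N)) y + p y))]
  apply sum_congr rfl
  intro v hv
  congr 1
  funext y
  exact (wt_erase' K N U D hD v hv y).symm

end typ

end Pool.Agent.TH87.RVE
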